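import Pool.Agent.Lib.MP_9e2528_lc.T20
import Pool.Agent.Lib.MP_9e2528_lc.Post

set_option autoImplicit false

namespace Pool.Agent.Results.MP_9e2528_lc.Pi11Complete

open Pool.Agent.Lib.MP_9e2528_lc

theorem result (n : ℕ) (hn : 3 ≤ n) :
    Pi11 (JumpIndex n) ∧ (∀ S : ℕ → Prop, Pi11 S → ManyOneReducible S (JumpIndex n)) ∧
      ¬ Pi11 fun e => ¬ JumpIndex n e := by
  obtain ⟨m, rfl⟩ : ∃ m, n = m + 1 := ⟨n - 1, by omega⟩
  rw [jumpIndex_eq]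
  exact ⟨catIndex_pi11 m, fun S hS => T3.hard3 hS hn,
    not_pi11_compl fun S hS => T3.hard3 hS hn⟩

end Pool.Agent.Results.MP_9e2528_lc.Pi11Complete
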