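import Pool.Agent.Lib.MP_9e2528_lc.T21

set_option autoImplicit false

namespace Pool.Agent.Results.MP_9e2528_lc.UniformGap

open Pool.Agent.Lib.MP_9e2528_lc

theorem result (S : ℕ → Prop) (hS : Pi11 S) : ∃ r : ℕ → ℕ, Computable r ∧ ∀ x, ∃ L : CLO,
    IsIndex (r x) L ∧ (S x → DeltaCat 3 L) ∧ (¬ S x → ∀ n, ¬ DeltaCat n L) :=
  T3.hard_all hS

end Pool.Agent.Results.MP_9e2528_lc.UniformGap
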